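import Pool.Agent.W425.BF.Stm

set_option autoImplicit false

namespace Pool.Agent.W379.BF

open Pool.Agent.W425.BF
open Pool.Agent.W426.SM (gord face IsRay)

variable {n k : ℕ}

lemma sum_ite (i : Fin n) (F : Fin n → ℤ) (a : Fin n → ℕ) :
    ∑ x, (if x = i then 0 else F x) * (a x : ℤ) = ∑ x, F x * (a x : ℤ) - F i * (a i : ℤ) := by
  classical
  have h : ∀ x, (if x = i then 0 else F x) * (a x : ℤ) =
      F x * (a x : ℤ) - (if x = i then F x * (a x : ℤ) else 0) := by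
    intro x
    by_cases hx : x = i <;> simp [hx]
  simp_rw [h]
  rw [Finset.sum_sub_distrib, Finset.sum_ite_eq' Finset.univ i]
  simp

lemma wt_cast (m : Fin k → Fin n → ℕ) (a : Fin n → ℕ) (j : Fin k) :
    ∑ x, (m j x : ℤ) * (a x : ℤ) = ((∑ x, a x * m j x : ℕ) : ℤ) := by
  push_cast
  exact Finset.sum_congr rfl fun x _ => mul_comm _ _

lemma sum_diff (m : Fin k → Fin n → ℕ) (a : Fin n → ℕ) (j j0 : Fin k) :
    ∑ x, ((m j x : ℤ) - m j0 x) * (a x : ℤ) =
      ((∑ x, a x * m j x : ℕ) : ℤ) - ((∑ x, a x * m j0 x : ℕ) : ℤ) := by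
  rw [← wt_cast, ← wt_cast, ← Finset.sum_sub_distrib]
  exact Finset.sum_congr rfl fun x _ => by ring

lemma cf_inl (m : Fin k → Fin n → ℕ) (i : Fin n) (j0 j : Fin k) (h : j ≠ j0 ∧ 1 ≤ m j i)
    (a : Fin n → ℕ) : ∑ x, cf m i j0 (Sum.inl j) x * (a x : ℤ) =
      ((∑ x, a x * m j x : ℕ) : ℤ) - ((∑ x, a x * m j0 x : ℕ) : ℤ) := by
  rw [← sum_diff]
  refine Finset.sum_congr rfl fun x _ => ?_
  simp only [cf]
  rw [if_pos h]

lemma cf_inr (m : Fin k → Fin n → ℕ) (i : Fin n) (j0 l : Fin k) (h : m l i = 0)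
    (h0 : m j0 i = 1) (a : Fin n → ℕ) :
    ∑ x, cf m i j0 (Sum.inr (Sum.inr l)) x * (a x : ℤ) =
      ((∑ x, a x * m l x : ℕ) : ℤ) - ((∑ x, a x * m j0 x : ℕ) : ℤ) + a i := by
  have h1 : ∀ x, cf m i j0 (Sum.inr (Sum.inr l)) x =
      if x = i then 0 else ((m l x : ℤ) - m j0 x) := by
    intro x
    simp only [cf]
    rw [if_pos h]
  simp_rw [h1]
  rw [sum_ite i (fun x => ((m l x : ℤ) - m j0 x)) a, sum_diff, h, h0]
  push_cast
  ring

lemma cf_inm (m : Fin k → Fin n → ℕ) (i : Fin n) (j0 j l : Fin k)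
    (h : j ≠ j0 ∧ 1 ≤ m j i ∧ m l i = 0)
    (h0 : m j0 i = 1) (a : Fin n → ℕ) :
    ∑ x, cf m i j0 (Sum.inr (Sum.inl (j, l))) x * (a x : ℤ) =
      ((m j i : ℤ) - 1) *
        (((∑ x, a x * m l x : ℕ) : ℤ) - ((∑ x, a x * m j0 x : ℕ) : ℤ)) +
      (((∑ x, a x * m j x : ℕ) : ℤ) - ((∑ x, a x * m j0 x : ℕ) : ℤ)) := by
  have h1 : ∀ x, cf m i j0 (Sum.inr (Sum.inl (j, l))) x =
      if x = i then 0 else
        (((m j i : ℤ) - 1) * ((m l x : ℤ) - m j0 x) + ((m j x : ℤ) - m j0 x)) := by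
    intro x
    simp only [cf]
    rw [if_pos h]
  simp_rw [h1]
  rw [sum_ite i (fun x => (((m j i : ℤ) - 1) * ((m l x : ℤ) - m j0 x) +
    ((m j x : ℤ) - m j0 x))) a]
  have h2 : ∑ x, (((m j i : ℤ) - 1) * ((m l x : ℤ) - m j0 x) + ((m j x : ℤ) - m j0 x)) *
      (a x : ℤ) = ((m j i : ℤ) - 1) * (∑ x, ((m l x : ℤ) - m j0 x) * (a x : ℤ)) +
        ∑ x, ((m j x : ℤ) - m j0 x) * (a x : ℤ) := by
    rw [Finset.mul_sum, ← Finset.sum_add_distrib]
    exact Finset.sum_congr rfl fun x _ => by ring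
  rw [h2, sum_diff, sum_diff, h.2.2, h0]
  push_cast
  ring

theorem disj : TaskDISJ := by
  intro n k m i j0 j1 h0 h1 hne
  rw [Set.disjoint_left]
  intro u hu hu'
  have e1 := hu (Sum.inl j1)
  have e2 := hu' (Sum.inl j0)
  have c1 : j1 ≠ j0 ∧ 1 ≤ m j1 i := ⟨fun h => hne h.symm, by omega⟩
  have c2 : j0 ≠ j1 ∧ 1 ≤ m j0 i := ⟨hne, by omega⟩
  rw [cf_inl m i j0 j1 c1] at e1
  rw [cf_inl m i j1 j0 c2] at e2
  have d1 : cd m i j0 (Sum.inl j1) = 1 := by simp only [cd]; rw [if_pos c1]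
  have d2 : cd m i j1 (Sum.inl j0) = 1 := by simp only [cd]; rw [if_pos c2]
  rw [d1] at e1
  rw [d2] at e2
  linarith

lemma pos_aux (m : Fin k → Fin n → ℕ) (i : Fin n) (a : Fin n → ℕ) (hai : a i ≠ 0) (j0 : Fin k)
    (hf : face m a j0) (h0 : m j0 i = 1) (hu : ∀ j, face m a j → j ≠ j0 → m j i = 0) (q : Ix k) :
    (cf m i j0 q = 0 ∧ cd m i j0 q = 0) ∨ 0 < ∑ x, cf m i j0 q x * (a x : ℤ) := by
  have hle : ∀ j, ((∑ x, a x * m j0 x : ℕ) : ℤ) ≤ ((∑ x, a x * m j x : ℕ) : ℤ) := by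
    intro j
    have := Pool.Agent.W803.SM.gord_le m a j
    rw [← (show ∑ x, a x * m j0 x = gord m a from hf)] at this
    exact_mod_cast this
  have hlt : ∀ j, j ≠ j0 → 1 ≤ m j i →
      ((∑ x, a x * m j0 x : ℕ) : ℤ) < ((∑ x, a x * m j x : ℕ) : ℤ) := by
    intro j hj hm
    refine lt_of_le_of_ne (hle j) ?_
    intro h
    have hface : face m a j := by
      have h' : ∑ x, a x * m j0 x = ∑ x, a x * m j x := by exact_mod_cast h
      exact h'.symm.trans hf
    have := hu j hface hj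
    omega
  have hai' : (0 : ℤ) < a i := by exact_mod_cast Nat.pos_of_ne_zero hai
  rcases q with j | ⟨j, l⟩ | l
  · by_cases hc : j ≠ j0 ∧ 1 ≤ m j i
    · right
      rw [cf_inl m i j0 j hc]
      have := hlt j hc.1 hc.2
      linarith
    · left
      constructor
      · funext x
        simp only [cf]
        rw [if_neg hc]; rfl
      · simp only [cd]
        rw [if_neg hc]
  · by_cases hc : j ≠ j0 ∧ 1 ≤ m j i ∧ m l i = 0
    · right
      rw [cf_inm m i j0 j l hc h0]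
      have h1 := hlt j hc.1 hc.2.1
      have h2 := hle l
      have h3 : (0 : ℤ) ≤ (m j i : ℤ) - 1 := by
        have : (1 : ℤ) ≤ m j i := by exact_mod_cast hc.2.1
        linarith
      have h4 := mul_nonneg h3 (sub_nonneg.2 h2)
      linarith
    · left
      constructor
      · funext x
        simp only [cf]
        rw [if_neg hc]; rfl
      · simp only [cd]
        rw [if_neg hc]
  · by_cases hc : m l i = 0
    · right
      rw [cf_inr m i j0 l hc h0]
      have h2 := hle l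
      linarith
    · left
      constructor
      · funext x
        simp only [cf]
        rw [if_neg hc]; rfl
      · simp only [cd]

theorem pos : TaskPOS := by
  intro n k m i a hB
  obtain ⟨hai, j0, hf, h0, hu⟩ := hB
  exact ⟨j0, h0, hf, fun q => pos_aux m i a hai j0 hf h0 hu q⟩

theorem npa : TaskNPA := by
  classical
  intro n k m i j0 h0 ρ hρ a ha hpar
  obtain ⟨⟨hai, j1, hf, h1, hu⟩, x0, hx0, hax0⟩ := ha
  obtain ⟨M, N, hM, hN, hMN⟩ := hpar
  obtain ⟨hρ0, hρc, hρe⟩ := hρ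
  have hscale : ∀ F : Fin n → ℤ, (M : ℤ) * ∑ x, F x * (a x : ℤ) = N * ∑ x, F x * (ρ x : ℤ) := by
    intro F
    rw [Finset.mul_sum, Finset.mul_sum]
    refine Finset.sum_congr rfl fun x _ => ?_
    have h2 : (M : ℤ) * a x = N * ρ x := by exact_mod_cast hMN x
    calc (M : ℤ) * (F x * (a x : ℤ)) = F x * ((M : ℤ) * a x) := by ring
      _ = F x * ((N : ℤ) * ρ x) := by rw [h2]
      _ = (N : ℤ) * (F x * (ρ x : ℤ)) := by ring
  have hM' : (0 : ℤ) < M := by exact_mod_cast hM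
  have hN' : (0 : ℤ) < N := by exact_mod_cast hN
  have hnz : ∀ x, a x ≠ 0 → ρ x ≠ 0 := by
    intro x hx h
    have := hMN x
    rw [h, mul_zero] at this
    rcases Nat.mul_eq_zero.1 this with h3 | h3
    · omega
    · exact hx h3
  by_cases hj : j1 = j0
  · subst hj
    obtain ⟨r, hr⟩ := hρe (fun x => if x = i then 1 else 0) (by
        intro x hx
        by_cases hxi : x = i
        · subst hxi
          exact absurd hx (hnz _ hai)
        · simp [hxi]) (by
        intro q hq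
        rcases pos_aux m i a hai j1 hf h1 hu q with h | h
        · rw [h.1]; simp
        · exfalso
          have h2 := hscale (cf m i j1 q)
          rw [hq, mul_zero] at h2
          have h3 := mul_pos hM' h
          linarith)
    have e1 := hr x0
    have e2 := hr i
    simp only [if_neg hx0] at e1
    simp only [if_true] at e2
    have hρx : (ρ x0 : ℚ) ≠ 0 := by exact_mod_cast hnz x0 hax0
    have hr0 : r = 0 := by
      rcases mul_eq_zero.1 e1.symm with h | h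
      · exact h
      · exact absurd h hρx
    rw [hr0, zero_mul] at e2
    exact one_ne_zero e2
  · have c1 : j1 ≠ j0 ∧ 1 ≤ m j1 i := ⟨hj, by omega⟩
    have e1 := hρc (Sum.inl j1)
    have e2 := hscale (cf m i j0 (Sum.inl j1))
    rw [cf_inl m i j0 j1 c1 a] at e2
    have e3 : (0 : ℤ) ≤ (M : ℤ) * (((∑ x, a x * m j1 x : ℕ) : ℤ) -
        ((∑ x, a x * m j0 x : ℕ) : ℤ)) := by
      rw [e2]; exact mul_nonneg hN'.le e1
    have e4 : (0 : ℤ) ≤ ((∑ x, a x * m j1 x : ℕ) : ℤ) - ((∑ x, a x * m j0 x : ℕ) : ℤ) :=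
      nonneg_of_mul_nonneg_right e3 hM'
    have e5 : ∑ x, a x * m j0 x ≤ ∑ x, a x * m j1 x := by
      have : ((∑ x, a x * m j0 x : ℕ) : ℤ) ≤ ((∑ x, a x * m j1 x : ℕ) : ℤ) := by linarith
      exact_mod_cast this
    have e6 := Pool.Agent.W803.SM.gord_le m a j0
    have e7 : ∑ x, a x * m j1 x = gord m a := hf
    have e8 : face m a j0 := by
      show ∑ x, a x * m j0 x = gord m a
      omega
    have := hu j0 e8 (fun h => hj h.symm)
    omega

end Pool.Agent.W379.BF
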